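import Mathlib
import Pool.Agent.W5h46.ML.All

/-!
# Malle's conjecture for `C₂ ≀ X`, for non-regular actions of `X`

Let `X` be a finite group and `V ≠ 1` a subgroup; `X` acts on `X / V`, and `C₂ ≀ X` acts on
`X / V × {0, 1}`. Suppose that `V` is contained in a core-free subgroup `U` of `X` with
`8 [X : U] ([X : U] + 1) ≤ [X : V]` (so `X` is a transitive permutation group of the degree
`[X : U]`, and the action on `X / V` refines this action). For every number field `K` the number of
isomorphism classes of extensions of `K` with the permutation group `C₂ ≀ X` of degree `2 [X : V]` and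
discriminant of norm at most `B` is asymptotic to `c B` with `c > 0` if `X` is a Galois group over
`K`, and there are no such extensions otherwise. If `p : X → Γ` is in the class `Cls K` of the starting
library (`Pool/Agent/TH444/TW/ClsDef.lean`) then the same holds with `Γ` in place of `X`.

Hence Malle's conjecture for such a permutation group `C₂ ≀ X`, over all number fields, is true if and
only if `X` is a Galois group over all number fields; it is true for `X = A ≀ S_n`, for all finite groups
`A`, if `n` is large and `V ≠ 1` fixes a point of `A × {1, ..., n}` and has index at least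
`8 |A| n (|A| n + 1)`.

The extensions `L` with this group are quadratic extensions of extensions `M` of degree `[X : V]` which
are not Galois over `K`; all the steps (Kummer theory, sieve, counting of the fields `M`) are done
relative to the Galois closure of `M`.
-/

set_option autoImplicit false

open Filter
open Pool.Agent.TH444.TW (Cls)

namespace Pool.Agent.Results.MP_a3214d_nt.NonRegularActions

/-- `Γ` is a Galois group over `K`. -/
def IsGaloisGroupOver (K Γ : Type) [Field K] [Group Γ] : Prop :=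
  ∃ (L : Type) (_ : Field L) (_ : Algebra K L), IsGalois K L ∧ Nonempty (Γ ≃* (L ≃ₐ[K] L))

/-- `G ≤ S_d` is, up to a bijection `f` of `{1, ..., d}` with `X / V × {0, 1}`, the wreath product
`C₂ ≀ X`: it consists of all permutations `π` for which there is `h ∈ X` such that `π` maps the block
`{q} × {0, 1}` to the block `{h q} × {0, 1}`, for all `q ∈ X / V`. -/
def IsC2Wreath {X : Type} [Group X] (V : Subgroup X) {d : ℕ} (G : Subgroup (Equiv.Perm (Fin d))) : Prop :=
  ∃ f : Fin d ≃ (X ⧸ V) × Bool,
    ∀ π : Equiv.Perm (Fin d), π ∈ G ↔ ∃ h : X, ∀ i, (f (π i)).1 = h • (f i).1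

/-- The fields `L` between `K` and its algebraic closure, of degree `d` over `K`, whose Galois group,
acting on the embeddings, is `G` (up to numbering), and whose relative discriminant has norm at most
`B` (that is, `|d_L| ≤ B |d_K| ^ d`). -/
def Ext (K : Type) [Field K] [NumberField K] (d : ℕ) (G : Subgroup (Equiv.Perm (Fin d)))
    (B : ℝ) : Set (IntermediateField K (AlgebraicClosure K)) :=
  {L | Module.finrank K L = d ∧
    (∃ e : (L →ₐ[K] AlgebraicClosure K) ≃ Fin d, ∀ π : Equiv.Perm (Fin d),
      π ∈ G ↔ ∃ σ : AlgebraicClosure K ≃ₐ[K] AlgebraicClosure K,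
        ∀ φ : L →ₐ[K] AlgebraicClosure K, e (σ.toAlgHom.comp φ) = π (e φ)) ∧
    ∃ h : NumberField L,
      ((|@NumberField.discr L _ h| : ℤ) : ℝ) ≤ B * ((|NumberField.discr K| : ℤ) : ℝ) ^ d}

/-- `N(K, G; B)`: the number of these fields up to `K`-isomorphism. -/
noncomputable def N (K : Type) [Field K] [NumberField K] (d : ℕ)
    (G : Subgroup (Equiv.Perm (Fin d))) (B : ℝ) : ℕ :=
  Nat.card (Quot fun L L' : Ext K d G B => Nonempty (L.1 ≃ₐ[K] L'.1))

/-- The conclusion of Malle's conjecture for `G`, over all number fields: there is `a > 0` such that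
for every number field `K` there are `c > 0` and `b ≥ 1` with
`N(K, G; B) ~ c B ^ a (log B) ^ (b - 1)`. -/
def Malle (d : ℕ) (G : Subgroup (Equiv.Perm (Fin d))) : Prop :=
  ∃ a : ℝ, 0 < a ∧ ∀ (K : Type) [Field K] [NumberField K], ∃ (c : ℝ) (b : ℕ), 0 < c ∧ 1 ≤ b ∧
    Tendsto (fun B : ℝ => (N K d G B : ℝ) / (B ^ a * Real.log B ^ (b - 1))) atTop (nhds c)

/-- If `Γ` is a Galois group over `K` then `N(K, G; B) ~ c B` with `c > 0`, and otherwise there is
no extension of `K` with group `G`, and `N(K, G; B) = 0`. -/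
def Criterion (K : Type) [Field K] [NumberField K] (Γ : Type) [Group Γ] (d : ℕ)
    (G : Subgroup (Equiv.Perm (Fin d))) : Prop :=
  (IsGaloisGroupOver K Γ →
    ∃ c : ℝ, 0 < c ∧ Tendsto (fun B : ℝ => (N K d G B : ℝ) / B) atTop (nhds c)) ∧
  (¬ IsGaloisGroupOver K Γ → ∀ B : ℝ, Ext K d G B = ∅ ∧ N K d G B = 0)

/-- `V` is a nontrivial subgroup of `X`, contained in a core-free subgroup `U` of `X` such that
`8 [X : U] ([X : U] + 1) ≤ [X : V]`. -/
def IsAdmissible {X : Type} [Group X] (V : Subgroup X) : Prop :=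
  V ≠ ⊥ ∧ ∃ U : Subgroup X, V ≤ U ∧ U.normalCore = ⊥ ∧ 8 * U.index * (U.index + 1) ≤ V.index

theorem criterion (K : Type) [Field K] [NumberField K] {X Γ : Type} [Group X] [Finite X] [Group Γ]
    (p : X →* Γ) (hp : Cls K p) (V : Subgroup X) (hV : IsAdmissible V) (d : ℕ)
    (G : Subgroup (Equiv.Perm (Fin d))) (hG : IsC2Wreath V G) : Criterion K Γ d G := by
  obtain ⟨-, U, hVU, hU, hc⟩ := hV
  constructor
  · intro hΓ
    exact Pool.Agent.W5h46.ML.asymp_isoQ K X V U hVU hU hc
      (Pool.Agent.W5h93.MX.gal_of_cls K p hp hΓ) G hG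
  · intro hΓ B
    have hVc : V.normalCore = ⊥ := by
      rw [← le_bot_iff, ← hU]
      exact Subgroup.normalCore_mono hVU
    have hemp : Ext K d G B = ∅ := by
      rw [Set.eq_empty_iff_forall_notMem]
      intro L hL
      obtain ⟨M, hM⟩ := Pool.Agent.W5h46.ML.gal_of_cntQ K X V hVc (G := G) hG (B := B) (L := L) hL
      exact hΓ (Pool.Agent.W5h93.MX.isG_of_gal K p (Pool.Agent.W5h93.MX.cls_surj K p hp) hM)
    refine ⟨hemp, ?_⟩
    have : IsEmpty (Ext K d G B) := Set.isEmpty_coe_sort.2 hemp
    have h0 : IsEmpty (Quot fun L L' : Ext K d G B => Nonempty (L.1 ≃ₐ[K] L'.1)) :=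
      ⟨fun q => Quot.ind (β := fun _ => False) (fun L => this.false L) q⟩
    exact Nat.card_of_isEmpty

theorem malle_iff {Γ : Type} [Group Γ] {d : ℕ} {G : Subgroup (Equiv.Perm (Fin d))}
    (h : ∀ (K : Type) [Field K] [NumberField K], Criterion K Γ d G) :
    Malle d G ↔ ∀ (K : Type) [Field K] [NumberField K], IsGaloisGroupOver K Γ := by
  constructor
  · rintro ⟨a, ha, hM⟩ K _ _
    by_contra hΓ
    obtain ⟨c, b, hc, -, hlim⟩ := hM K
    have h0 := (h K).2 hΓ
    have h1 : Tendsto (fun B : ℝ => (N K d G B : ℝ) / (B ^ a * Real.log B ^ (b - 1))) atTop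
        (nhds 0) := by
      simp only [(h0 _).2, Nat.cast_zero, zero_div]
      exact tendsto_const_nhds
    exact hc.ne' (tendsto_nhds_unique hlim h1)
  · intro hΓ
    refine ⟨1, one_pos, fun K _ _ => ?_⟩
    obtain ⟨c, hc0, hlim⟩ := (h K).1 (hΓ K)
    refine ⟨c, 1, hc0, le_rfl, ?_⟩
    simpa using hlim

/-- the stabilizer of a point of `A × {1, ..., n}` -/
theorem stab (A : Type) [Group A] [Finite A] (n : ℕ) (i₀ : Fin n) :
    ∃ U : Subgroup ((Fin n → A) ⋊[mulAutArrow] Equiv.Perm (Fin n)),
      U.normalCore = ⊥ ∧ U.index = Nat.card A * n ∧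
      ∀ w : (Fin n → A) ⋊[mulAutArrow] Equiv.Perm (Fin n), w ∈ U ↔ w.right i₀ = i₀ ∧ w.left i₀ = 1 := by
  classical
  let _ := Pool.Agent.TH444.ML.wrAct A n
  have hdef : ∀ (w : Pool.Agent.H391R2.Wr A n) (x : A × Fin n),
      w • x = (w.left (w.right x.2) * x.1, w.right x.2) := fun _ _ => rfl
  have htrans : ∀ x : A × Fin n, ∃ w : Pool.Agent.H391R2.Wr A n, w • ((1 : A), i₀) = x := by
    rintro ⟨a, i⟩
    refine ⟨⟨fun _ => a, Equiv.swap i₀ i⟩, ?_⟩
    rw [hdef]
    simp
  refine ⟨MulAction.stabilizer (Pool.Agent.H391R2.Wr A n) ((1 : A), i₀), ?_, ?_, ?_⟩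
  · rw [eq_bot_iff]
    intro x hx
    have hfix : ∀ y : A × Fin n, x • y = y := by
      intro y
      obtain ⟨w, rfl⟩ := htrans y
      have h1 : w⁻¹ * x * w ∈ MulAction.stabilizer (Pool.Agent.H391R2.Wr A n) ((1 : A), i₀) := by
        have := hx w⁻¹
        simpa using this
      rw [MulAction.mem_stabilizer_iff, mul_smul, mul_smul, inv_smul_eq_iff] at h1
      exact h1
    rw [Subgroup.mem_bot]
    have hr : x.right = 1 := by
      ext i
      have := congrArg (fun z : A × Fin n => (z.2 : ℕ)) (hfix (1, i))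
      simpa [hdef] using this
    apply SemidirectProduct.ext
    · funext i
      have := congrArg Prod.fst (hfix (1, i))
      rw [hdef] at this
      simp only [hr, Equiv.Perm.one_apply, mul_one] at this
      exact this
    · exact hr
  · rw [MulAction.index_stabilizer]
    have : MulAction.orbit (Pool.Agent.H391R2.Wr A n) ((1 : A), i₀) = Set.univ := by
      rw [Set.eq_univ_iff_forall]
      intro x
      obtain ⟨w, hw⟩ := htrans x
      exact ⟨w, hw⟩
    rw [this, Set.ncard_univ, Nat.card_prod, Nat.card_fin]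
  · intro w
    rw [MulAction.mem_stabilizer_iff, hdef]
    constructor
    · intro h
      have h1 : w.right i₀ = i₀ := congrArg Prod.snd h
      have h2 : w.left (w.right i₀) * 1 = 1 := congrArg Prod.fst h
      rw [h1, mul_one] at h2
      exact ⟨h1, h2⟩
    · rintro ⟨h1, h2⟩
      simp only [h1, h2, mul_one]

end Pool.Agent.Results.MP_a3214d_nt.NonRegularActions

open Pool.Agent.Results.MP_a3214d_nt.NonRegularActions in
/-- First part: the number of extensions of `K` with the permutation group `C₂ ≀ X` on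
`X / V × {0, 1}`, for `X` over `Γ` in the class `Cls K` and admissible `V`. Second part: Malle's
conjecture for this group is equivalent to the realizability of `X`, for all finite groups `X`. Third
part: the same with `Γ`. Fourth part: Malle's conjecture for `C₂ ≀ (A ≀ S_n)` in non-regular actions of
`A ≀ S_n`. -/
theorem Pool.Agent.Results.MP_a3214d_nt.NonRegularActions.result :
    (∀ (K : Type) [Field K] [NumberField K] (X Γ : Type) [Group X] [Finite X] [Group Γ]
      (p : X →* Γ), Cls K p → ∀ V : Subgroup X, IsAdmissible V →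
      ∀ (d : ℕ) (G : Subgroup (Equiv.Perm (Fin d))), IsC2Wreath V G → Criterion K Γ d G) ∧
    (∀ (X : Type) [Group X] [Finite X] (V : Subgroup X), IsAdmissible V →
      ∀ (d : ℕ) (G : Subgroup (Equiv.Perm (Fin d))), IsC2Wreath V G →
        (∀ (K : Type) [Field K] [NumberField K], Criterion K X d G) ∧
        (Malle d G ↔ ∀ (K : Type) [Field K] [NumberField K], IsGaloisGroupOver K X)) ∧
    (∀ (X Γ : Type) [Group X] [Finite X] [Group Γ] (p : X →* Γ),
      (∀ (K : Type) [Field K] [NumberField K], Cls K p) → ∀ V : Subgroup X, IsAdmissible V →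
      ∀ (d : ℕ) (G : Subgroup (Equiv.Perm (Fin d))), IsC2Wreath V G →
        (Malle d G ↔ ∀ (K : Type) [Field K] [NumberField K], IsGaloisGroupOver K Γ)) ∧
    (∀ (A : Type) [Group A] [Finite A] (n : ℕ), ((3 * Nat.card A + 2).factorial) ^ 3 ≤ n →
      ∀ (V : Subgroup ((Fin n → A) ⋊[mulAutArrow] Equiv.Perm (Fin n))) (i : Fin n), V ≠ ⊥ →
        (∀ w ∈ V, w.right i = i ∧ w.left i = 1) →
        8 * (Nat.card A * n) * (Nat.card A * n + 1) ≤ V.index →
        ∀ (d : ℕ) (G : Subgroup (Equiv.Perm (Fin d))), IsC2Wreath V G → Malle d G) := by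
  have key : ∀ (X Γ : Type) [Group X] [Finite X] [Group Γ] (p : X →* Γ),
      (∀ (K : Type) [Field K] [NumberField K], Cls K p) → ∀ V : Subgroup X, IsAdmissible V →
      ∀ (d : ℕ) (G : Subgroup (Equiv.Perm (Fin d))), IsC2Wreath V G →
        (Malle d G ↔ ∀ (K : Type) [Field K] [NumberField K], IsGaloisGroupOver K Γ) :=
    fun X Γ _ _ _ p hp V hV d G hG => malle_iff fun K _ _ => criterion K p (hp K) V hV d G hG
  refine ⟨fun K _ _ X Γ _ _ _ p hp V hV d G hG => criterion K p hp V hV d G hG, ?_, key, ?_⟩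
  · intro X _ _ V hV d G hG
    have h : ∀ (K : Type) [Field K] [NumberField K], Criterion K X d G := fun K _ _ =>
      criterion K (MonoidHom.id X) (Pool.Agent.TH444.ML.cls_id K X) V hV d G hG
    exact ⟨h, malle_iff h⟩
  · intro A _ _ n hn V i hV0 hVi hc d G hG
    obtain ⟨U, hU, hUi, hUm⟩ := stab A n i
    have hV : IsAdmissible V := ⟨hV0, U, fun w hw => (hUm w).2 (hVi w hw), hU, by rw [hUi]; exact hc⟩
    have h1 : ∀ (K : Type) [Field K] [NumberField K],
        Cls K (1 : Pool.Agent.H391R2.Wr A n →* Unit) := fun K _ _ =>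
      Pool.Agent.TH444.ML.wr_cls K A n hn
    refine (key _ Unit (1 : Pool.Agent.H391R2.Wr A n →* Unit) h1 V hV d G hG).2 ?_
    intro K _ _
    refine ⟨K, inferInstance, inferInstance, inferInstance, ⟨?_⟩⟩
    have hs : Subsingleton (K ≃ₐ[K] K) := ⟨fun σ τ => by
      ext x
      exact (σ.commutes x).trans (τ.commutes x).symm⟩
    have hu : Unique (K ≃ₐ[K] K) := ⟨⟨1⟩, fun σ => Subsingleton.elim _ _⟩
    exact MulEquiv.ofUnique
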