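import Mathlib
import Pool.Agent.W5h46.MW.Done
import Pool.Agent.W5h46.MW.P
import Pool.Agent.W5h46.MW.X
import Pool.Agent.W5h46.MW.M
import Pool.Agent.W5h46.MW.Stab
import Pool.Agent.W5h93.MX.Real

/-!
# Malle's conjecture for the groups `C₂ ^ (X / V) ⋊ X`, acting on `X / W × {0, 1}`

Let `X` be a finite group, `W < V ≤ X` subgroups, and let `G` be the group `C₂ ^ (X / V) ⋊ X`, acting
on `X / W × {0, 1}` by `(x W, b) ↦ (h x W, a (x V) b)`. For `V = W` this is the wreath product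
`C₂ ≀ X` for the action of `X` on `X / W`; here `V ≠ W`. For `X = X₁ × Y`, `V = W₁ × Y`,
`W = W₁ × W₂` it is the direct product of the permutation groups `C₂ ≀ X₁` (on `X₁ / W₁ × {0, 1}`) and
`Y` (on `Y / W₂`), in product action.

Suppose that `W` is contained in a core-free subgroup `U` of `X` with
`16 [X : U] ([X : U] + 1) ≤ [X : V]`. For every number field `K` the number of isomorphism classes of
extensions of `K` with the permutation group `G` and discriminant of norm at most `B` is asymptotic to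
`c B ^ (1 / [V : W])` with `c > 0` if `X` is a Galois group over `K`, and there are no such extensions
otherwise. If `p : X → Γ` is in the class `Cls K` of the starting library
(`Pool/Agent/TH444/TW/ClsDef.lean`) then the same holds with `Γ` in place of `X`. Hence Malle's
conjecture for `G`, over all number fields, is true if and only if `X` is a Galois group over all number
fields. For `X₁ = A ≀ S_n`, `n` large, and the direct product `(C₂ ≀ X₁) × Y`, in product action, with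
any transitive permutation group `Y`, it is true if and only if `Y` is a Galois group over all number
fields; so it is true if `Y` is abelian.
-/

set_option autoImplicit false

open Filter
open Pool.Agent.TH444.TW (Cls)

namespace Pool.Agent.Results.MP_a3214d_nt.ProductActions

/-- `Γ` is a Galois group over `K`. -/
def IsGaloisGroupOver (K Γ : Type) [Field K] [Group Γ] : Prop :=
  ∃ (L : Type) (_ : Field L) (_ : Algebra K L), IsGalois K L ∧ Nonempty (Γ ≃* (L ≃ₐ[K] L))

/-- `G ≤ S_d` is, up to a bijection `f` of `{1, ..., d}` with `X / W × {0, 1}`, the group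
`C₂ ^ (X / V) ⋊ X`: it consists of all permutations `(x W, b) ↦ (h x W, a (x V) b)`, where `h ∈ X` and
`a` is a function from `X / V` to the group of the permutations of `{0, 1}`. -/
def IsPartialWreath {X : Type} [Group X] (V W : Subgroup X) {d : ℕ}
    (G : Subgroup (Equiv.Perm (Fin d))) : Prop :=
  ∃ f : Fin d ≃ (X ⧸ W) × Bool, ∀ π : Equiv.Perm (Fin d), π ∈ G ↔
    ∃ (h : X) (a : X ⧸ V → Equiv.Perm Bool), ∀ (i : Fin d) (x : X), (f i).1 = (x : X ⧸ W) →
      f (π i) = (((h * x : X) : X ⧸ W), a (x : X ⧸ V) (f i).2)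

/-- `G ≤ S_d` is, up to a bijection `f` of `{1, ..., d}` with `(X₁ / W₁ × {0, 1}) × Y / W₂`, the direct
product `(C₂ ≀ X₁) × Y` in product action: it consists of all permutations
`((q, b), z) ↦ ((h q, a q b), y z)`, where `h ∈ X₁`, `y ∈ Y` and `a` is a function from `X₁ / W₁` to the
group of the permutations of `{0, 1}`. -/
def IsProduct {X₁ Y : Type} [Group X₁] [Group Y] (W₁ : Subgroup X₁) (W₂ : Subgroup Y) {d : ℕ}
    (G : Subgroup (Equiv.Perm (Fin d))) : Prop :=
  ∃ f : Fin d ≃ ((X₁ ⧸ W₁) × Bool) × (Y ⧸ W₂), ∀ π : Equiv.Perm (Fin d), π ∈ G ↔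
    ∃ (h : X₁) (a : X₁ ⧸ W₁ → Equiv.Perm Bool) (y : Y),
      ∀ q b z, π (f.symm ((q, b), z)) = f.symm ((h • q, a q b), y • z)

/-- The fields `L` between `K` and its algebraic closure, of degree `d` over `K`, whose Galois group,
acting on the embeddings, is `G` (up to numbering), and whose relative discriminant has norm at most
`B` (that is, `|d_L| ≤ B |d_K| ^ d`). -/
def Ext (K : Type) [Field K] [NumberField K] (d : ℕ) (G : Subgroup (Equiv.Perm (Fin d)))
    (B : ℝ) : Set (IntermediateField K (AlgebraicClosure K)) :=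
  {L | Module.finrank K L = d ∧
    (∃ e : (L →ₐ[K] AlgebraicClosure K) ≃ Fin d, ∀ π : Equiv.Perm (Fin d),
      π ∈ G ↔ ∃ σ : AlgebraicClosure K ≃ₐ[K] AlgebraicClosure K,
        ∀ φ : L →ₐ[K] AlgebraicClosure K, e (σ.toAlgHom.comp φ) = π (e φ)) ∧
    ∃ h : NumberField L,
      ((|@NumberField.discr L _ h| : ℤ) : ℝ) ≤ B * ((|NumberField.discr K| : ℤ) : ℝ) ^ d}

/-- `N(K, G; B)`: the number of these fields up to `K`-isomorphism. -/
noncomputable def N (K : Type) [Field K] [NumberField K] (d : ℕ)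
    (G : Subgroup (Equiv.Perm (Fin d))) (B : ℝ) : ℕ :=
  Nat.card (Quot fun L L' : Ext K d G B => Nonempty (L.1 ≃ₐ[K] L'.1))

/-- The conclusion of Malle's conjecture for `G`, over all number fields: there is `a > 0` such that
for every number field `K` there are `c > 0` and `b ≥ 1` with
`N(K, G; B) ~ c B ^ a (log B) ^ (b - 1)`. -/
def Malle (d : ℕ) (G : Subgroup (Equiv.Perm (Fin d))) : Prop :=
  ∃ a : ℝ, 0 < a ∧ ∀ (K : Type) [Field K] [NumberField K], ∃ (c : ℝ) (b : ℕ), 0 < c ∧ 1 ≤ b ∧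
    Tendsto (fun B : ℝ => (N K d G B : ℝ) / (B ^ a * Real.log B ^ (b - 1))) atTop (nhds c)

/-- The index of a permutation: the sum of `l - 1` over the lengths `l` of its cycles. -/
def ind {d : ℕ} (π : Equiv.Perm (Fin d)) : ℕ := (π.cycleType.map (fun l => l - 1)).sum

/-- The minimal index of the elements `π ≠ 1` of `G`; Malle's constant is `a(G) = 1 / minInd G`. -/
noncomputable def minInd {d : ℕ} (G : Subgroup (Equiv.Perm (Fin d))) : ℕ :=
  sInf {k : ℕ | ∃ π ∈ G, π ≠ 1 ∧ ind π = k}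

/-- Malle's constant `b(K, G)`: the number of orbits of the absolute Galois group of `K` on the conjugacy
classes of the elements of `G` of minimal index; here `σ` maps the class of `π` to the class of `π ^ m`
if `σ ζ = ζ ^ m` for all roots of unity `ζ` of order dividing `|G|`. -/
noncomputable def malleB (K : Type) [Field K] {d : ℕ} (G : Subgroup (Equiv.Perm (Fin d))) : ℕ :=
  Nat.card (Quot fun π π' : {π : Equiv.Perm (Fin d) // π ∈ G ∧ π ≠ 1 ∧ ind π = minInd G} =>
    ∃ g ∈ G, ∃ (σ : AlgebraicClosure K ≃ₐ[K] AlgebraicClosure K) (m : ℕ),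
      (∀ ζ : AlgebraicClosure K, ζ ^ Nat.card G = 1 → σ ζ = ζ ^ m) ∧ π'.1 = g * π.1 ^ m * g⁻¹)

/-- Malle's conjecture for `G` over the number field `K`, with Malle's constants:
`N(K, G; B) ~ c B ^ a(G) (log B) ^ (b(K, G) - 1)` with `c > 0`. -/
def StrongMalle (K : Type) [Field K] [NumberField K] (d : ℕ) (G : Subgroup (Equiv.Perm (Fin d))) :
    Prop :=
  ∃ c : ℝ, 0 < c ∧ Tendsto (fun B : ℝ => (N K d G B : ℝ) /
    (B ^ (1 / (minInd G : ℝ)) * Real.log B ^ (malleB K G - 1))) atTop (nhds c)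

/-- Malle's constants are `a(G) = 1 / r` and `b(K, G) = 1`; if `Γ` is a Galois group over `K` then
`N(K, G; B) ~ c B ^ (1 / r)` with `c > 0`, and otherwise there is no extension of `K` with group `G`, and
`N(K, G; B) = 0`; Malle's conjecture for `G` over `K`, with Malle's constants, holds if and only if `Γ`
is a Galois group over `K`. -/
def Criterion (K : Type) [Field K] [NumberField K] (Γ : Type) [Group Γ] (d : ℕ)
    (G : Subgroup (Equiv.Perm (Fin d))) (r : ℕ) : Prop :=
  (minInd G = r ∧ malleB K G = 1) ∧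
  (IsGaloisGroupOver K Γ →
    ∃ c : ℝ, 0 < c ∧ Tendsto (fun B : ℝ => (N K d G B : ℝ) / B ^ (1 / (r : ℝ))) atTop (nhds c)) ∧
  (¬ IsGaloisGroupOver K Γ → ∀ B : ℝ, Ext K d G B = ∅ ∧ N K d G B = 0) ∧
  (StrongMalle K d G ↔ IsGaloisGroupOver K Γ)

/-- `W < V ≤ X`, and `W` is contained in a core-free subgroup `U` of `X` such that
`16 [X : U] ([X : U] + 1) ≤ [X : V]`. -/
def IsAdmissible {X : Type} [Group X] (V W : Subgroup X) : Prop :=
  W < V ∧ ∃ U : Subgroup X, W ≤ U ∧ U.normalCore = ⊥ ∧ 16 * U.index * (U.index + 1) ≤ V.index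

/-- The same for `(C₂ ≀ X₁) × Y`: `W₂` is a proper core-free subgroup of `Y`, and `W₁` is contained in a
core-free subgroup `U₁` of `X₁` such that, for `u = [X₁ : U₁] [Y : W₂]`, `16 u (u + 1) ≤ [X₁ : W₁]`. -/
def IsAdmissibleProduct {X₁ Y : Type} [Group X₁] [Group Y] (W₁ : Subgroup X₁) (W₂ : Subgroup Y) :
    Prop :=
  W₂.normalCore = ⊥ ∧ W₂ ≠ ⊤ ∧ ∃ U₁ : Subgroup X₁, W₁ ≤ U₁ ∧ U₁.normalCore = ⊥ ∧
    16 * (U₁.index * W₂.index) * (U₁.index * W₂.index + 1) ≤ W₁.index

theorem consts (K : Type) [Field K] {X : Type} [Group X] [Finite X] (V W : Subgroup X)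
    (hV : IsAdmissible V W) (d : ℕ) (G : Subgroup (Equiv.Perm (Fin d))) (hG : IsPartialWreath V W G) :
    minInd G = W.relIndex V ∧ malleB K G = 1 := by
  obtain ⟨hlt, U, hWU, hU, hc⟩ := hV
  have hyp := Pool.Agent.W5h46.MW.rest.hyp X V W U hlt.le hWU hU hc
  obtain ⟨h1, h2⟩ := Pool.Agent.W5h46.MW.index_W hyp (G := G) hG
  have h3 : minInd G = W.relIndex V := h1.csInf_eq
  refine ⟨h3, ?_⟩
  obtain ⟨π₀, hπ, hπ1, hπi⟩ := h1.1
  unfold malleB
  rw [Nat.card_eq_one_iff_unique]
  refine ⟨⟨?_⟩, ⟨Quot.mk _ ⟨π₀, hπ, hπ1, ?_⟩⟩⟩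
  · rintro ⟨x⟩ ⟨y⟩
    apply Quot.sound
    obtain ⟨g, hg, he⟩ := h2 x.1 x.2.1 y.1 y.2.1 (x.2.2.2.trans h3) (y.2.2.2.trans h3)
    refine ⟨g, hg, 1, 1, fun ζ _ => by simp, ?_⟩
    rw [pow_one]
    exact he
  · rw [h3]
    exact hπi

theorem criterion (K : Type) [Field K] [NumberField K] {X Γ : Type} [Group X] [Finite X] [Group Γ]
    (p : X →* Γ) (hp : Cls K p) (V W : Subgroup X) (hV : IsAdmissible V W) (d : ℕ)
    (G : Subgroup (Equiv.Perm (Fin d))) (hG : IsPartialWreath V W G) :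
    Criterion K Γ d G (W.relIndex V) := by
  have hcst := consts K V W hV d G hG
  obtain ⟨hlt, U, hWU, hU, hc⟩ := hV
  have hpos : IsGaloisGroupOver K Γ → ∃ c : ℝ, 0 < c ∧
      Tendsto (fun B : ℝ => (N K d G B : ℝ) / B ^ (1 / (W.relIndex V : ℝ))) atTop (nhds c) := by
    intro hΓ
    exact Pool.Agent.W5h46.MW.asymp_isoW Pool.Agent.W5h46.MW.rest K X V W U hlt.le hWU hU hc
      (Pool.Agent.W5h93.MX.gal_of_cls K p hp hΓ) G hG
  have hneg : ¬ IsGaloisGroupOver K Γ → ∀ B : ℝ, Ext K d G B = ∅ ∧ N K d G B = 0 := by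
    intro hΓ B
    have hemp : Ext K d G B = ∅ := by
      rw [Set.eq_empty_iff_forall_notMem]
      intro L hL
      obtain ⟨M, hM⟩ := Pool.Agent.W5h46.MW.gal_of_cnt Pool.Agent.W5h46.MW.rest K X V W U hlt.le hWU hU
        hc (G := G) hG (B := B) (L := L) hL
      exact hΓ (Pool.Agent.W5h93.MX.isG_of_gal K p (Pool.Agent.W5h93.MX.cls_surj K p hp) hM)
    refine ⟨hemp, ?_⟩
    have : IsEmpty (Ext K d G B) := Set.isEmpty_coe_sort.2 hemp
    have h0 : IsEmpty (Quot fun L L' : Ext K d G B => Nonempty (L.1 ≃ₐ[K] L'.1)) :=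
      ⟨fun q => Quot.ind (β := fun _ => False) (fun L => this.false L) q⟩
    exact Nat.card_of_isEmpty
  refine ⟨hcst, hpos, hneg, ?_, ?_⟩
  · rintro ⟨c, hc0, hlim⟩
    by_contra hΓ
    have h1 : Tendsto (fun B : ℝ => (N K d G B : ℝ) /
        (B ^ (1 / (minInd G : ℝ)) * Real.log B ^ (malleB K G - 1))) atTop (nhds 0) := by
      simp only [(hneg hΓ _).2, Nat.cast_zero, zero_div]
      exact tendsto_const_nhds
    exact hc0.ne' (tendsto_nhds_unique hlim h1)
  · intro hΓ
    obtain ⟨c, hc0, hlim⟩ := hpos hΓ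
    refine ⟨c, hc0, ?_⟩
    rw [hcst.1, hcst.2]
    simpa using hlim

theorem malle_iff {Γ : Type} [Group Γ] {d : ℕ} {G : Subgroup (Equiv.Perm (Fin d))} {r : ℕ}
    (hr : 0 < r) (h : ∀ (K : Type) [Field K] [NumberField K], Criterion K Γ d G r) :
    Malle d G ↔ ∀ (K : Type) [Field K] [NumberField K], IsGaloisGroupOver K Γ := by
  have hr' : (0 : ℝ) < r := by exact_mod_cast hr
  constructor
  · rintro ⟨a, ha, hM⟩ K _ _
    by_contra hΓ
    obtain ⟨c, b, hc, -, hlim⟩ := hM K
    have h0 := (h K).2.2.1 hΓ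
    have h1 : Tendsto (fun B : ℝ => (N K d G B : ℝ) / (B ^ a * Real.log B ^ (b - 1))) atTop
        (nhds 0) := by
      simp only [(h0 _).2, Nat.cast_zero, zero_div]
      exact tendsto_const_nhds
    exact hc.ne' (tendsto_nhds_unique hlim h1)
  · intro hΓ
    refine ⟨1 / (r : ℝ), by positivity, fun K _ _ => ?_⟩
    obtain ⟨c, hc0, hlim⟩ := (h K).2.1 (hΓ K)
    refine ⟨c, 1, hc0, le_rfl, ?_⟩
    simpa using hlim

theorem relIndex_pos {X : Type} [Group X] [Finite X] (V W : Subgroup X) : 0 < W.relIndex V :=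
  Pool.Agent.W5h46.MW.relIndex_pos

theorem admissible_of_product {X₁ Y : Type} [Group X₁] [Group Y] {W₁ : Subgroup X₁} {W₂ : Subgroup Y}
    (h : IsAdmissibleProduct W₁ W₂) : IsAdmissible (W₁.prod (⊤ : Subgroup Y)) (W₁.prod W₂) := by
  obtain ⟨hc2, hne, U₁, hWU, hU, hc⟩ := h
  refine ⟨lt_of_le_of_ne (Subgroup.prod_mono le_rfl le_top) ?_, U₁.prod W₂,
    Subgroup.prod_mono hWU le_rfl, Pool.Agent.W5h46.MW.core_prod _ hU hc2, ?_⟩
  · intro he
    apply hne
    rw [eq_top_iff]
    intro y _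
    have h1 : ((1, y) : X₁ × Y) ∈ W₁.prod (⊤ : Subgroup Y) :=
      Subgroup.mem_prod.2 ⟨one_mem _, Subgroup.mem_top _⟩
    rw [← he] at h1
    exact (Subgroup.mem_prod.1 h1).2
  · rw [Pool.Agent.W5h46.MW.index_prod', Pool.Agent.W5h46.MW.index_prod_top]
    exact hc

theorem criterion_prod (K : Type) [Field K] [NumberField K] {X₁ Y Γ : Type} [Group X₁] [Finite X₁]
    [Group Y] [Finite Y] [Group Γ] (p : X₁ × Y →* Γ) (hp : Cls K p) (W₁ : Subgroup X₁)
    (W₂ : Subgroup Y) (h : IsAdmissibleProduct W₁ W₂) (d : ℕ) (G : Subgroup (Equiv.Perm (Fin d)))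
    (hG : IsProduct W₁ W₂ G) : Criterion K Γ d G W₂.index := by
  have h1 := criterion K p hp _ _ (admissible_of_product h) d G
    (Pool.Agent.W5h46.MW.isC2W_of_prod hG)
  rw [Pool.Agent.W5h46.MW.relIndex_prod] at h1
  exact h1

theorem index_pos' {Y : Type} [Group Y] [Finite Y] (W₂ : Subgroup Y) : 0 < W₂.index :=
  Nat.pos_of_ne_zero Subgroup.index_ne_zero_of_finite

theorem gal_unit (K : Type) [Field K] : IsGaloisGroupOver K Unit := by
  refine ⟨K, inferInstance, inferInstance, inferInstance, ⟨?_⟩⟩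
  have hs : Subsingleton (K ≃ₐ[K] K) := ⟨fun σ τ => by
    ext x
    exact (σ.commutes x).trans (τ.commutes x).symm⟩
  have hu : Unique (K ≃ₐ[K] K) := ⟨⟨1⟩, fun σ => Subsingleton.elim _ _⟩
  exact MulEquiv.ofUnique

/-- finite abelian groups are Galois groups -/
theorem gal_abelian (K : Type) [Field K] [NumberField K] (Y : Type) [Group Y] [Finite Y]
    (h : ∀ x y : Y, x * y = y * x) : IsGaloisGroupOver K Y := by
  obtain ⟨M, hM⟩ := Pool.Agent.W5h93.MX.gal_of_cls K (1 : Y →* Unit)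
    (Pool.Agent.W5h46.MW.cls_ab K Y h) (gal_unit K)
  exact Pool.Agent.W5h93.MX.isG_of_gal K (MonoidHom.id Y) Function.surjective_id hM

end Pool.Agent.Results.MP_a3214d_nt.ProductActions

open Pool.Agent.Results.MP_a3214d_nt.ProductActions in
/-- First part: the number of extensions of `K` with the permutation group `C₂ ^ (X / V) ⋊ X` on
`X / W × {0, 1}`, for `X` over `Γ` in the class `Cls K` and admissible `W < V`. Second and third part:
Malle's conjecture for this group is equivalent to the realizability of `X`, or of `Γ`. Fourth part: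
the direct products `(C₂ ≀ X₁) × Y` in product action. Fifth part: `X₁ = A ≀ S_n`, for all finite
groups `A` and `Y`: Malle's conjecture is equivalent to the realizability of `Y`. Sixth part: it is true
if `Y` is abelian. -/
theorem Pool.Agent.Results.MP_a3214d_nt.ProductActions.result :
    (∀ (K : Type) [Field K] [NumberField K] (X Γ : Type) [Group X] [Finite X] [Group Γ]
      (p : X →* Γ), Cls K p → ∀ V W : Subgroup X, IsAdmissible V W →
      ∀ (d : ℕ) (G : Subgroup (Equiv.Perm (Fin d))), IsPartialWreath V W G →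
        Criterion K Γ d G (W.relIndex V)) ∧
    (∀ (X : Type) [Group X] [Finite X] (V W : Subgroup X), IsAdmissible V W →
      ∀ (d : ℕ) (G : Subgroup (Equiv.Perm (Fin d))), IsPartialWreath V W G →
        (∀ (K : Type) [Field K] [NumberField K], Criterion K X d G (W.relIndex V)) ∧
        (Malle d G ↔ ∀ (K : Type) [Field K] [NumberField K], IsGaloisGroupOver K X)) ∧
    (∀ (X Γ : Type) [Group X] [Finite X] [Group Γ] (p : X →* Γ),
      (∀ (K : Type) [Field K] [NumberField K], Cls K p) → ∀ V W : Subgroup X, IsAdmissible V W →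
      ∀ (d : ℕ) (G : Subgroup (Equiv.Perm (Fin d))), IsPartialWreath V W G →
        (Malle d G ↔ ∀ (K : Type) [Field K] [NumberField K], IsGaloisGroupOver K Γ)) ∧
    (∀ (X₁ Y : Type) [Group X₁] [Finite X₁] [Group Y] [Finite Y] (W₁ : Subgroup X₁)
      (W₂ : Subgroup Y), IsAdmissibleProduct W₁ W₂ →
      ∀ (d : ℕ) (G : Subgroup (Equiv.Perm (Fin d))), IsProduct W₁ W₂ G →
        (∀ (K : Type) [Field K] [NumberField K], Criterion K (X₁ × Y) d G W₂.index) ∧
        (Malle d G ↔ ∀ (K : Type) [Field K] [NumberField K], IsGaloisGroupOver K (X₁ × Y))) ∧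
    (∀ (A Y : Type) [Group A] [Finite A] [Group Y] [Finite Y] (n : ℕ),
      ((3 * Nat.card A + 2).factorial) ^ 3 ≤ n →
      ∀ (W₁ : Subgroup ((Fin n → A) ⋊[mulAutArrow] Equiv.Perm (Fin n))) (i : Fin n)
        (W₂ : Subgroup Y), (∀ w ∈ W₁, w.right i = i ∧ w.left i = 1) → W₂.normalCore = ⊥ → W₂ ≠ ⊤ →
        16 * (Nat.card A * n * W₂.index) * (Nat.card A * n * W₂.index + 1) ≤ W₁.index →
        ∀ (d : ℕ) (G : Subgroup (Equiv.Perm (Fin d))), IsProduct W₁ W₂ G →
          (∀ (K : Type) [Field K] [NumberField K], Criterion K Y d G W₂.index) ∧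
          (Malle d G ↔ ∀ (K : Type) [Field K] [NumberField K], IsGaloisGroupOver K Y)) ∧
    (∀ (A Y : Type) [Group A] [Finite A] [Group Y] [Finite Y], (∀ x y : Y, x * y = y * x) →
      ∀ n : ℕ, ((3 * Nat.card A + 2).factorial) ^ 3 ≤ n →
      ∀ (W₁ : Subgroup ((Fin n → A) ⋊[mulAutArrow] Equiv.Perm (Fin n))) (i : Fin n)
        (W₂ : Subgroup Y), (∀ w ∈ W₁, w.right i = i ∧ w.left i = 1) → W₂.normalCore = ⊥ → W₂ ≠ ⊤ →
        16 * (Nat.card A * n * W₂.index) * (Nat.card A * n * W₂.index + 1) ≤ W₁.index →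
        ∀ (d : ℕ) (G : Subgroup (Equiv.Perm (Fin d))), IsProduct W₁ W₂ G → Malle d G) := by
  have key : ∀ (X Γ : Type) [Group X] [Finite X] [Group Γ] (p : X →* Γ),
      (∀ (K : Type) [Field K] [NumberField K], Cls K p) → ∀ V W : Subgroup X, IsAdmissible V W →
      ∀ (d : ℕ) (G : Subgroup (Equiv.Perm (Fin d))), IsPartialWreath V W G →
        (Malle d G ↔ ∀ (K : Type) [Field K] [NumberField K], IsGaloisGroupOver K Γ) :=
    fun X Γ _ _ _ p hp V W hV d G hG =>
      malle_iff (relIndex_pos V W) fun K _ _ => criterion K p (hp K) V W hV d G hG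
  have h5 : ∀ (A Y : Type) [Group A] [Finite A] [Group Y] [Finite Y] (n : ℕ),
      ((3 * Nat.card A + 2).factorial) ^ 3 ≤ n →
      ∀ (W₁ : Subgroup ((Fin n → A) ⋊[mulAutArrow] Equiv.Perm (Fin n))) (i : Fin n)
        (W₂ : Subgroup Y), (∀ w ∈ W₁, w.right i = i ∧ w.left i = 1) → W₂.normalCore = ⊥ → W₂ ≠ ⊤ →
        16 * (Nat.card A * n * W₂.index) * (Nat.card A * n * W₂.index + 1) ≤ W₁.index →
        ∀ (d : ℕ) (G : Subgroup (Equiv.Perm (Fin d))), IsProduct W₁ W₂ G →
          (∀ (K : Type) [Field K] [NumberField K], Criterion K Y d G W₂.index) ∧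
          (Malle d G ↔ ∀ (K : Type) [Field K] [NumberField K], IsGaloisGroupOver K Y) := by
    intro A Y _ _ _ _ n hn W₁ i W₂ hW₁ hcore hne hc d G hG
    obtain ⟨U₁, hU, hUi, hUm⟩ := Pool.Agent.W5h46.MW.stab A n i
    have hadm : IsAdmissibleProduct W₁ W₂ :=
      ⟨hcore, hne, U₁, fun w hw => (hUm w).2 (hW₁ w hw), hU, by rw [hUi]; exact hc⟩
    have h : ∀ (K : Type) [Field K] [NumberField K], Criterion K Y d G W₂.index := fun K _ _ =>
      criterion_prod K (MonoidHom.snd (Pool.Agent.H391R2.Wr A n) Y)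
        (Pool.Agent.W5h46.MW.cls_prod K A Y n hn) W₁ W₂ hadm d G hG
    exact ⟨h, malle_iff (index_pos' W₂) h⟩
  refine ⟨fun K _ _ X Γ _ _ _ p hp V W hV d G hG => criterion K p hp V W hV d G hG, ?_, key, ?_, h5,
    ?_⟩
  · intro X _ _ V W hV d G hG
    have h : ∀ (K : Type) [Field K] [NumberField K], Criterion K X d G (W.relIndex V) := fun K _ _ =>
      criterion K (MonoidHom.id X) (Pool.Agent.TH444.ML.cls_id K X) V W hV d G hG
    exact ⟨h, malle_iff (relIndex_pos V W) h⟩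
  · intro X₁ Y _ _ _ _ W₁ W₂ hadm d G hG
    have h : ∀ (K : Type) [Field K] [NumberField K], Criterion K (X₁ × Y) d G W₂.index := fun K _ _ =>
      criterion_prod K (MonoidHom.id (X₁ × Y)) (Pool.Agent.TH444.ML.cls_id K (X₁ × Y)) W₁ W₂ hadm d
        G hG
    exact ⟨h, malle_iff (index_pos' W₂) h⟩
  · intro A Y _ _ _ _ hab n hn W₁ i W₂ hW₁ hcore hne hc d G hG
    exact (h5 A Y n hn W₁ i W₂ hW₁ hcore hne hc d G hG).2.2 fun K _ _ => gal_abelian K Y hab
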