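import Mathlib
import Pool.Agent.W5h93.MX.Real

/-!
# Malle's conjecture for `C₂ ≀ X` and the inverse Galois problem for a quotient of `X`

`K` is a number field, `X` a finite group, acting on itself by multiplication, and `C₂ ≀ X` acts on
`X × {0, 1}`. Let `p : X → Γ` be a homomorphism in the class `Cls K` of the starting library
(`Pool/Agent/TH444/TW/ClsDef.lean`; for example an epimorphism whose kernel is isomorphic to a direct
product of wreath products `A i ≀ S_(n i)`, `A i` a nontrivial finite group with trivial centre whose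
inner automorphisms have a complement in `Aut (A i)`, `n i` large, the extension may be non-split),
and suppose that `X` has a core-free subgroup `U` with `8 [X : U] ([X : U] + 1) ≤ |X|`. Then the
number of isomorphism classes of extensions of `K` with group `C₂ ≀ X` and discriminant of norm at
most `B` is asymptotic to `c B` with `c > 0` if `Γ` is a Galois group over `K`, and it is `0` for all
`B` otherwise.

For normal subgroups `M` of `X` with `M` isomorphic to `∏ A i ≀ S_(n i)` as above and
`|X / M| ≤ (n i - 3)!` for one `i` the subgroup `U` exists, and so Malle's conjecture for `C₂ ≀ X`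
over all number fields is true if and only if `X / M` is a Galois group over all number fields.
-/

set_option autoImplicit false

open Filter
open Pool.Agent.TH444.TW (Cls)

namespace Pool.Agent.Results.MP_a3214d_nt.QuotientCriterion

/-- `Γ` is a Galois group over `K`. -/
def IsGaloisGroupOver (K Γ : Type) [Field K] [Group Γ] : Prop :=
  ∃ (L : Type) (_ : Field L) (_ : Algebra K L), IsGalois K L ∧ Nonempty (Γ ≃* (L ≃ₐ[K] L))

/-- `G ≤ S_d` is, up to a bijection `f` of `{1, ..., d}` with `X × {0, 1}`, the wreath product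
`C₂ ≀ X`: it consists of all permutations `π` for which there is `h ∈ X` such that `π` maps the block
`{x} × {0, 1}` to the block `{h x} × {0, 1}`, for all `x ∈ X`. -/
def IsC2Wreath (X : Type) [Group X] {d : ℕ} (G : Subgroup (Equiv.Perm (Fin d))) : Prop :=
  ∃ f : Fin d ≃ X × Bool, ∀ π : Equiv.Perm (Fin d), π ∈ G ↔ ∃ h : X, ∀ i, (f (π i)).1 = h * (f i).1

/-- The fields `L` between `K` and its algebraic closure, of degree `d` over `K`, whose Galois group,
acting on the embeddings, is `G` (up to numbering), and whose relative discriminant has norm at most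
`B` (that is, `|d_L| ≤ B |d_K| ^ d`). -/
def Ext (K : Type) [Field K] [NumberField K] (d : ℕ) (G : Subgroup (Equiv.Perm (Fin d)))
    (B : ℝ) : Set (IntermediateField K (AlgebraicClosure K)) :=
  {L | Module.finrank K L = d ∧
    (∃ e : (L →ₐ[K] AlgebraicClosure K) ≃ Fin d, ∀ π : Equiv.Perm (Fin d),
      π ∈ G ↔ ∃ σ : AlgebraicClosure K ≃ₐ[K] AlgebraicClosure K,
        ∀ φ : L →ₐ[K] AlgebraicClosure K, e (σ.toAlgHom.comp φ) = π (e φ)) ∧
    ∃ h : NumberField L,
      ((|@NumberField.discr L _ h| : ℤ) : ℝ) ≤ B * ((|NumberField.discr K| : ℤ) : ℝ) ^ d}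

/-- `N(K, G; B)`: the number of these fields up to `K`-isomorphism. -/
noncomputable def N (K : Type) [Field K] [NumberField K] (d : ℕ)
    (G : Subgroup (Equiv.Perm (Fin d))) (B : ℝ) : ℕ :=
  Nat.card (Quot fun L L' : Ext K d G B => Nonempty (L.1 ≃ₐ[K] L'.1))

/-- The conclusion of Malle's conjecture for `G`, over all number fields: there is `a > 0` such that
for every number field `K` there are `c > 0` and `b ≥ 1` with
`N(K, G; B) ~ c B ^ a (log B) ^ (b - 1)`. -/
def Malle (d : ℕ) (G : Subgroup (Equiv.Perm (Fin d))) : Prop :=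
  ∃ a : ℝ, 0 < a ∧ ∀ (K : Type) [Field K] [NumberField K], ∃ (c : ℝ) (b : ℕ), 0 < c ∧ 1 ≤ b ∧
    Tendsto (fun B : ℝ => (N K d G B : ℝ) / (B ^ a * Real.log B ^ (b - 1))) atTop (nhds c)

/-- If `Γ` is a Galois group over `K` then `N(K, G; B) ~ c B` with `c > 0`, and otherwise there is
no extension of `K` with group `G`, and `N(K, G; B) = 0`. -/
def Criterion (K : Type) [Field K] [NumberField K] (Γ : Type) [Group Γ] (d : ℕ)
    (G : Subgroup (Equiv.Perm (Fin d))) : Prop :=
  (IsGaloisGroupOver K Γ →
    ∃ c : ℝ, 0 < c ∧ Tendsto (fun B : ℝ => (N K d G B : ℝ) / B) atTop (nhds c)) ∧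
  (¬ IsGaloisGroupOver K Γ → ∀ B : ℝ, Ext K d G B = ∅ ∧ N K d G B = 0)

/-- `M` is isomorphic to the direct product of the wreath products `A i ≀ S_(n i)`, where `A i` is a
nontrivial finite group with trivial centre whose group of inner automorphisms has a complement in
`Aut (A i)`, `n i ≥ ((3 |A i| + 2)!) ^ 3`, and `M` has index at most `(n i - 3)!` for one `i`. -/
def IsWreathKernel {X : Type} [Group X] (M : Subgroup X) : Prop :=
  ∃ (ι : Type) (_ : Finite ι) (A : ι → Type) (_ : ∀ i, Group (A i)) (_ : ∀ i, Finite (A i))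
    (_ : ∀ i, Nontrivial (A i)) (n : ι → ℕ), (∀ i, Subgroup.center (A i) = ⊥) ∧
    (∀ i, ∃ T : Subgroup (MulAut (A i)),
      IsCompl T (MulAut.conj : A i →* MulAut (A i)).range) ∧
    (∀ i, ((3 * Nat.card (A i) + 2).factorial) ^ 3 ≤ n i) ∧
    Nonempty (M ≃* (∀ i, (Fin (n i) → A i) ⋊[mulAutArrow] Equiv.Perm (Fin (n i)))) ∧
    ∃ i, M.index ≤ (n i - 3).factorial

theorem criterion (K : Type) [Field K] [NumberField K] {X Γ : Type} [Group X] [Finite X] [Group Γ]
    (p : X →* Γ) (hp : Cls K p) (U : Subgroup X) (hU : U.normalCore = ⊥)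
    (hc : 8 * U.index * (U.index + 1) ≤ Nat.card X) (d : ℕ) (G : Subgroup (Equiv.Perm (Fin d)))
    (hG : IsC2Wreath X G) : Criterion K Γ d G := by
  have h2 : 2 ≤ Nat.card X := by
    have h1 : 1 ≤ U.index := Nat.one_le_iff_ne_zero.2 Subgroup.index_ne_zero_of_finite
    nlinarith
  constructor
  · intro hΓ
    exact Pool.Agent.TH444.ML.asymp_iso Pool.Agent.TH444.ML.rest K X h2 U hU hc
      (Pool.Agent.W5h93.MX.gal_of_cls K p hp hΓ) G hG
  · intro hΓ B
    have hemp : Ext K d G B = ∅ := by
      rw [Set.eq_empty_iff_forall_notMem]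
      intro L hL
      obtain ⟨M, hM⟩ := Pool.Agent.W5h93.MX.gal_of_cnt K (X := X) (G := G) hG (B := B) (L := L) hL
      exact hΓ (Pool.Agent.W5h93.MX.isG_of_gal K p (Pool.Agent.W5h93.MX.cls_surj K p hp) hM)
    refine ⟨hemp, ?_⟩
    have : IsEmpty (Ext K d G B) := Set.isEmpty_coe_sort.2 hemp
    have h0 : IsEmpty (Quot fun L L' : Ext K d G B => Nonempty (L.1 ≃ₐ[K] L'.1)) :=
      ⟨fun q => Quot.ind (β := fun _ => False) (fun L => this.false L) q⟩
    exact Nat.card_of_isEmpty

theorem malle_iff {Γ : Type} [Group Γ] {d : ℕ} {G : Subgroup (Equiv.Perm (Fin d))}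
    (h : ∀ (K : Type) [Field K] [NumberField K], Criterion K Γ d G) :
    Malle d G ↔ ∀ (K : Type) [Field K] [NumberField K], IsGaloisGroupOver K Γ := by
  constructor
  · rintro ⟨a, ha, hM⟩ K _ _
    by_contra hΓ
    obtain ⟨c, b, hc, -, hlim⟩ := hM K
    have h0 := (h K).2 hΓ
    have h1 : Tendsto (fun B : ℝ => (N K d G B : ℝ) / (B ^ a * Real.log B ^ (b - 1))) atTop
        (nhds 0) := by
      simp only [(h0 _).2, Nat.cast_zero, zero_div]
      exact tendsto_const_nhds
    exact hc.ne' (tendsto_nhds_unique hlim h1)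
  · intro hΓ
    refine ⟨1, one_pos, fun K _ _ => ?_⟩
    obtain ⟨c, hc0, hlim⟩ := (h K).1 (hΓ K)
    refine ⟨c, 1, hc0, le_rfl, ?_⟩
    simpa using hlim

end Pool.Agent.Results.MP_a3214d_nt.QuotientCriterion

open Pool.Agent.Results.MP_a3214d_nt.QuotientCriterion in
/-- First part: the number of extensions of `K` with group `C₂ ≀ X` for `X` over `Γ` in the class
`Cls K`, with a small core-free subgroup. Second part: Malle's conjecture for `C₂ ≀ X`, `X` any
finite extension by a product of large wreath products, is equivalent to the realizability of the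
quotient. -/
theorem Pool.Agent.Results.MP_a3214d_nt.QuotientCriterion.result :
    (∀ (K : Type) [Field K] [NumberField K] (X Γ : Type) [Group X] [Finite X] [Group Γ]
      (p : X →* Γ), Cls K p → ∀ U : Subgroup X, U.normalCore = ⊥ →
        8 * U.index * (U.index + 1) ≤ Nat.card X →
      ∀ (d : ℕ) (G : Subgroup (Equiv.Perm (Fin d))), IsC2Wreath X G → Criterion K Γ d G) ∧
    (∀ (X : Type) [Group X] [Finite X] (M : Subgroup X) [M.Normal], IsWreathKernel M →
      ∀ (d : ℕ) (G : Subgroup (Equiv.Perm (Fin d))), IsC2Wreath X G →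
        (∀ (K : Type) [Field K] [NumberField K], Criterion K (X ⧸ M) d G) ∧
        (Malle d G ↔ ∀ (K : Type) [Field K] [NumberField K], IsGaloisGroupOver K (X ⧸ M))) := by
  refine ⟨fun K _ _ X Γ _ _ _ p hp U hU hc d G hG => criterion K p hp U hU hc d G hG, ?_⟩
  intro X _ _ M _ hM d G hG
  obtain ⟨ι, _, A, _, _, _, n, hZ, hT, hn, ⟨e⟩, j, hj⟩ := hM
  have h20 : ∀ i, 20 ≤ n i := fun i =>
    Pool.Agent.W5h93.MX.twenty_le (Nat.card (A i)) (n i) Nat.card_pos (hn i)
  obtain ⟨U, hU, hc⟩ := Pool.Agent.W5h93.MX.small A n h20 X M e j hj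
  have key : ∀ (K : Type) [Field K] [NumberField K], Criterion K (X ⧸ M) d G := fun K _ _ =>
    criterion K (QuotientGroup.mk' M)
      (Pool.Agent.W5h93.MX.cls_kernel K ι A n hZ hT hn X M e) U hU hc d G hG
  exact ⟨key, malle_iff key⟩
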